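import Pool.Agent.WAP.StmtsL

/-!
# WAP, row DGN: digits
-/

set_option autoImplicit false

namespace Pool.Agent.WAP.H27

open Classical Polynomial WeierstrassCurve.Affine

section

variable {F : Type} [NormedField F] [Algebra GaussianInt F] {d : F}

theorem add_sm' (a b : GaussianInt) (P : Pt d) : sm (a + b) P = sm a P + sm b P :=
  add_gsm (algebraMap GaussianInt F) a b P

theorem mul_sm' (a b : GaussianInt) (P : Pt d) : sm (a * b) P = sm a (sm b P) :=
  mul_gsm (algebraMap GaussianInt F) a b P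

theorem zero_sm' (P : Pt d) : sm (0 : GaussianInt) P = 0 := by
  show gsm (algebraMap GaussianInt F) 0 P = 0
  simp [gsm]

theorem one_sm' (P : Pt d) : sm (1 : GaussianInt) P = P := by
  show gsm (algebraMap GaussianInt F) 1 P = P
  simp [gsm]

variable {ϖ : GaussianInt}

theorem q_pos (hF : IsLoc F ϖ) : 0 < qn F ϖ := hF.uni

theorem q_lt (hF : IsLoc F ϖ) : qn F ϖ < 1 := (hF.lt_one ϖ).2 dvd_rfl

theorem le_q (hF : IsLoc F ϖ) {x : F} (hx : ‖x‖ < 1) : ‖x‖ ≤ qn F ϖ := by
  by_cases h0 : x = 0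
  · rw [h0, norm_zero]
    exact (q_pos hF).le
  · obtain ⟨n, hn⟩ := hF.val x h0
    have hq := q_pos hF
    have hq1 := q_lt hF
    rw [hn] at hx ⊢
    have hn1 : 1 ≤ n := by
      by_contra hc
      have h2 : n ≤ 0 := by omega
      have h3 : (1 : ℝ) ≤ ‖algebraMap GaussianInt F ϖ‖ ^ n :=
        one_le_zpow_of_nonpos₀ hq hq1.le h2
      linarith
    have h4 : ‖algebraMap GaussianInt F ϖ‖ ^ n ≤ ‖algebraMap GaussianInt F ϖ‖ ^ (1 : ℤ) :=
      zpow_le_zpow_right_of_le_one₀ hq hq1.le hn1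
    rw [zpow_one] at h4
    exact h4

theorem norm_unit (hF : IsLoc F ϖ) {a : GaussianInt} (ha : ¬ ϖ ∣ a) :
    ‖algebraMap GaussianInt F a‖ = 1 := by
  refine le_antisymm (hF.int a) ?_
  by_contra hc
  exact ha ((hF.lt_one a).1 (not_le.1 hc))

theorem ultra3 (hF : IsLoc F ϖ) {x y z : F} {c : ℝ} (hx : ‖x‖ ≤ c) (hy : ‖y‖ ≤ c)
    (hz : ‖z‖ ≤ c) : ‖x - y - z‖ ≤ c := by
  have h1 := hF.ultra (x - y) (-z)
  have h2 := hF.ultra x (-y)
  rw [norm_neg] at h1 h2
  rw [← sub_eq_add_neg] at h1 h2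
  exact h1.trans (max_le (h2.trans (max_le hx hy)) hz)

end

theorem dgn (zal : ZalStmt) (zsl : ZslStmt) (zlv : ZlvStmt) : DgnStmt := by
  intro F _ _ ϖ hF d hd E R N0 ρ hE hR hRE hN0 hρ
  obtain ⟨l1, l2, l3, l4, l5, l6, l7, l8⟩ := zlv F ϖ hF d hd
  have hq := q_pos hF
  have hq1 := q_lt hF
  by_cases hE0 : E = 0
  · have hz : zc E = 0 := by rw [hE0, zc_zero]
    rw [hz, norm_zero] at hRE
    have hR0 : zc R = 0 := norm_le_zero_iff.1 hRE
    rw [l3 R hR] at hR0
    refine ⟨0, dvd_zero _, ?_⟩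
    rw [zero_sm', hR0, sub_zero]
    refine ⟨Or.inl rfl, ?_⟩
    rw [zc_zero, norm_zero]
    exact hρ.le
  · have hzE : 0 < ‖zc E‖ := by
      rw [norm_pos_iff]
      intro h
      exact hE0 ((l3 E hE).1 h)
    have hEk : ∀ k : ℕ, Big 1 (sm (ϖ ^ k) E) ∧ ‖zc (sm (ϖ ^ k) E)‖ = qn F ϖ ^ k * ‖zc E‖ := by
      intro k
      induction k with
      | zero =>
        rw [pow_zero, one_sm', pow_zero, one_mul]
        exact ⟨hE, rfl⟩
      | succ k ih =>
        rw [pow_succ', mul_sm']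
        refine ⟨(zsl F ϖ hF d hd ϖ _ ih.1).1, ?_⟩
        rw [l5 _ ih.1, ih.2, pow_succ']
        ring
    have key : ∀ k : ℕ, ∃ a : GaussianInt, N0 ∣ a ∧ Big 1 (R - sm a E) ∧
        ‖zc (R - sm a E)‖ ≤ qn F ϖ ^ k * ‖zc E‖ := by
      intro k
      induction k with
      | zero =>
        refine ⟨0, dvd_zero _, ?_⟩
        rw [zero_sm', sub_zero, pow_zero, one_mul]
        exact ⟨hR, hRE⟩
      | succ k ih =>
        obtain ⟨a, ha, hB, hle⟩ := ih
        obtain ⟨hkB, hkz⟩ := hEk k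
        set Ek : Pt d := sm (ϖ ^ k) E with hEkdef
        set Rk : Pt d := R - sm a E with hRkdef
        set r : ℝ := ‖zc Ek‖ with hrdef
        have hr : 0 < r := by
          rw [hkz]
          positivity
        have hzk : zc Ek ≠ 0 := norm_pos_iff.1 hr
        have hEk0 : Ek ≠ 0 := fun h => hzk (by rw [h, zc_zero])
        rw [← hkz] at hle
        have hn1 := norm_unit hF hN0
        have hN : algebraMap GaussianInt F N0 ≠ 0 := by
          rw [← norm_pos_iff, hn1]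
          exact one_pos
        have hv : ‖zc Rk / zc Ek / algebraMap GaussianInt F N0‖ ≤ 1 := by
          rw [norm_div, norm_div, hn1, div_one]
          exact (div_le_one hr).2 hle
        obtain ⟨b, hb⟩ := hF.res _ hv
        have hb' := le_q hF hb
        have h1 : ‖zc Rk - algebraMap GaussianInt F (N0 * b) * zc Ek‖ ≤ qn F ϖ * r := by
          have e : zc Rk - algebraMap GaussianInt F (N0 * b) * zc Ek =
              algebraMap GaussianInt F N0 * (zc Rk / zc Ek / algebraMap GaussianInt F N0 -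
                algebraMap GaussianInt F b) * zc Ek := by
            rw [map_mul]
            field_simp
          rw [e, norm_mul, norm_mul, hn1, one_mul]
          exact mul_le_mul_of_nonneg_right hb' hr.le
        obtain ⟨hSB, hS⟩ := zsl F ϖ hF d hd (N0 * b) Ek hkB
        have h8 := l8 Ek hEk0 hkB
        have herr : ‖d‖ ^ 2 * r ^ 5 ≤ qn F ϖ * r := by
          have h9 : (‖d‖ * r ^ 2) ^ 2 ≤ qn F ϖ ^ 2 :=
            pow_le_pow_left₀ (by positivity) h8 2
          have h10 : qn F ϖ ^ 2 ≤ qn F ϖ := by nlinarith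
          calc ‖d‖ ^ 2 * r ^ 5 = (‖d‖ * r ^ 2) ^ 2 * r := by ring
            _ ≤ qn F ϖ * r := mul_le_mul_of_nonneg_right (h9.trans h10) hr.le
        have hLR : Lev r Rk := ⟨hB, hle⟩
        have hLS : Lev r (sm (N0 * b) Ek) := l2 r (N0 * b) Ek ⟨hkB, le_rfl⟩
        obtain ⟨-, -, hLD⟩ := l1 r Rk (sm (N0 * b) Ek) hLR hLS
        have hz := (zal F ϖ hF d hd (Rk - sm (N0 * b) Ek) (sm (N0 * b) Ek) hLD.1 hSB).2
        rw [sub_add_cancel] at hz
        have hmax : max ‖zc (Rk - sm (N0 * b) Ek)‖ ‖zc (sm (N0 * b) Ek)‖ ≤ r :=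
          max_le hLD.2 hLS.2
        have hz2 : ‖zc Rk - zc (Rk - sm (N0 * b) Ek) - zc (sm (N0 * b) Ek)‖ ≤ qn F ϖ * r := by
          refine hz.trans (le_trans ?_ herr)
          refine mul_le_mul_of_nonneg_left (pow_le_pow_left₀ (by positivity) hmax 5) (by positivity)
        have hS2 : ‖zc (sm (N0 * b) Ek) - algebraMap GaussianInt F (N0 * b) * zc Ek‖ ≤
            qn F ϖ * r := hS.trans herr
        have hfin : ‖zc (Rk - sm (N0 * b) Ek)‖ ≤ qn F ϖ * r := by
          have h11 := ultra3 hF h1 hS2 hz2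
          have e : zc Rk - algebraMap GaussianInt F (N0 * b) * zc Ek -
              (zc (sm (N0 * b) Ek) - algebraMap GaussianInt F (N0 * b) * zc Ek) -
              (zc Rk - zc (Rk - sm (N0 * b) Ek) - zc (sm (N0 * b) Ek)) =
              zc (Rk - sm (N0 * b) Ek) := by ring
          rw [e] at h11
          exact h11
        refine ⟨a + N0 * b * ϖ ^ k, dvd_add ha (Dvd.intro (b * ϖ ^ k) (by ring)), ?_⟩
        have e2 : R - sm (a + N0 * b * ϖ ^ k) E = Rk - sm (N0 * b) Ek := by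
          rw [add_sm', mul_sm', hRkdef, hEkdef]
          abel
        rw [e2]
        refine ⟨hLD.1, ?_⟩
        rw [pow_succ', mul_assoc, ← hkz]
        exact hfin
    obtain ⟨k, hk⟩ := exists_pow_lt_of_lt_one (div_pos hρ hzE) hq1
    obtain ⟨a, ha, hB, hle⟩ := key k
    refine ⟨a, ha, hB, hle.trans ?_⟩
    have := (lt_div_iff₀ hzE).1 hk
    exact this.le

end Pool.Agent.WAP.H27
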