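import Pool.Agent.WAP.StmtsP2
import Pool.Agent.WAP.Alg

/-!
# WAP, row COL: three collinear points
-/

set_option autoImplicit false

namespace Pool.Agent.WAP.H27

open Pool.Agent.WAP Pool.Agent.WAP.P2 Pool.Agent.WAP.G Classical

theorem col : ColStmt := by
  intro F _ d h2 hd P Q hP hQ hPQ
  obtain ⟨x1, y1, h1⟩ := exists_isP hd hP
  obtain ⟨x2, y2, h2'⟩ := exists_isP hd hQ
  have e1 := h1.eqn hd
  have e2 := h2'.eqn hd
  have c1 : cX P / d = x1 := h1.xn_eq hd
  have c2 : cX Q / d = x2 := h2'.xn_eq hd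
  rw [c1, c2]
  by_cases hx : x1 = x2
  · subst hx
    have hy : y1 ≠ 0 := by
      intro hy
      have hy2 : y1 = -y2 := by
        rcases h1.y_eq_or h2' hd with h | h
        · rw [← h, hy, neg_zero]
        · exact h
      exact hPQ (h1.add_same (h2'.congr rfl (by rw [hy2, neg_neg])))
    have hQP : Q = P := by
      rcases h1.y_eq_or h2' hd with h | h
      · exact h2'.ext (h ▸ h1)
      · exact absurd (h1.add_same (h2'.congr rfl (by rw [h, neg_neg]))) hPQ
    subst hQP
    have h3 := h1.dbl h2 hd hy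
    have c3 := h3.xn_eq hd
    have c3' : cX (Q + Q) / d = (x1 ^ 2 + 1) ^ 2 / (4 * cub x1) := c3
    rw [c3', ← e1]
    have h4 : (4 : F) ≠ 0 := by
      have : (4 : F) = 2 * 2 := by norm_num
      rw [this]
      exact mul_ne_zero h2 h2
    refine ⟨(x1 - 1) * (x1 ^ 2 - 2 * x1 - 1) / (2 * d * y1), ?_⟩
    unfold cub at e1
    field_simp
    linear_combination (-16 : F) * (x1 - 1) ^ 2 * e1
  · have h3 := h1.add h2' hd hx
    have c3 : cX (P + Q) / d = _ := h3.xn_eq hd
    rw [c3]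
    have hxx : x1 - x2 ≠ 0 := sub_ne_zero.2 hx
    obtain ⟨l, hl⟩ : ∃ l : F, l = (y1 - y2) / (x1 - x2) := ⟨_, rfl⟩
    rw [← hl]
    have hl2 : y2 = y1 - l * (x1 - x2) := by
      rw [hl]
      field_simp
      ring
    refine ⟨l * (1 - x1) + y1, ?_⟩
    apply mul_left_cancel₀ hxx
    unfold cub at e1 e2
    rw [hl2] at e2
    linear_combination (-(1 - x2)) * e1 + (1 - x1) * e2

end Pool.Agent.WAP.H27
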